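import Pool.Agent.V5helper50.RS.Stm2

/-!
# Project RS, job ASM: the main theorem from the two bounds
-/

set_option autoImplicit false

open Finset MeasureTheory ProbabilityTheory

namespace Pool.Agent.V5helper18.RS

open Pool.Agent.V5helper50.RS

lemma R_congr {k Q : ℕ} {t t' : ℕ → ℕ} {j n u : ℕ} (h : ∀ x < n, t x = t' x) :
    R k Q t j n u = R k Q t' j n u := by
  unfold R
  congr 1
  apply Finset.filter_congr
  intro x hx
  have h1 : ∑ i, a k Q t (x i) = ∑ i, a k Q t' (x i) := by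
    apply Finset.sum_congr rfl
    intro i _
    have h2 := Fintype.mem_piFinset.1 hx i
    rw [a, a, h _ (Finset.mem_range.1 h2)]
  rw [h1]

lemma exists_root {k : ℕ} (hk : 1 ≤ k) {u : ℕ} (hu : 1 ≤ u) :
    ∃ L : ℕ, 1 ≤ L ∧ L ^ k ≤ u ∧ u < (L + 1) ^ k := by
  have hex : ∃ L : ℕ, u < (L + 1) ^ k :=
    ⟨u, (Nat.lt_succ_self u).trans_le (Nat.le_self_pow (by omega) (u + 1))⟩
  classical
  refine ⟨Nat.find hex, ?_, ?_, Nat.find_spec hex⟩
  · by_contra h0
    have h1 : Nat.find hex = 0 := by omega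
    have h2 := Nat.find_spec hex
    rw [h1] at h2
    simp at h2
    omega
  · by_contra h0
    have h0 := not_le.1 h0
    have hne : Nat.find hex ≠ 0 := by
      intro h1
      rw [h1, zero_pow (by omega)] at h0
      omega
    obtain ⟨m, hm⟩ := Nat.exists_eq_succ_of_ne_zero hne
    have h2 : u < (m + 1) ^ k := by rwa [hm] at h0
    have h3 := Nat.find_min' hex h2
    omega

lemma scale {k d L u : ℕ} (hk : 1 ≤ k) (hd : k + 1 ≤ d) (hL : 1 ≤ L) (h1 : L ^ k ≤ u)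
    (h2 : u < (L + 1) ^ k) :
    (L : ℝ) ^ d / (L : ℝ) ^ k ≤ (u : ℝ) ^ ((d : ℝ) / k - 1) ∧
      (u : ℝ) ^ ((d : ℝ) / k - 1) ≤ 2 ^ (d - k) * ((L : ℝ) ^ d / (L : ℝ) ^ k) := by
  have hL0 : (0 : ℝ) < L := by exact_mod_cast hL
  have hk0 : (0 : ℝ) < k := by exact_mod_cast hk
  have hdk : (k : ℝ) + 1 ≤ d := by exact_mod_cast hd
  have he : 0 ≤ (d : ℝ) / k - 1 := by
    rw [sub_nonneg, le_div_iff₀ hk0]
    linarith
  have hY : ((L : ℝ) ^ k) ^ ((d : ℝ) / k - 1) = (L : ℝ) ^ d / (L : ℝ) ^ k := by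
    rw [← Real.rpow_natCast, ← Real.rpow_mul hL0.le, ← Real.rpow_natCast, ← Real.rpow_sub hL0]
    congr 1
    field_simp
  have h1' : (L : ℝ) ^ k ≤ u := by exact_mod_cast h1
  have h2' : (u : ℝ) ≤ (2 : ℝ) ^ k * (L : ℝ) ^ k := by
    have h3 : u ≤ (2 * L) ^ k := h2.le.trans (Nat.pow_le_pow_left (by omega) k)
    rw [← mul_pow]
    exact_mod_cast h3
  constructor
  · rw [← hY]
    exact Real.rpow_le_rpow (by positivity) h1' he
  · refine (Real.rpow_le_rpow (Nat.cast_nonneg _) h2' he).trans (le_of_eq ?_)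
    rw [Real.mul_rpow (by positivity) (by positivity), hY]
    congr 1
    rw [← Real.rpow_natCast, ← Real.rpow_mul (by norm_num), ← Real.rpow_natCast,
      Nat.cast_sub (by omega)]
    congr 1
    field_simp

/-- **Job ASM.** -/
theorem t_ASM : S_ASM := by
  intro hLAW hBC hNR hCNV k d hk hd hUP hLOW
  obtain ⟨C, hC, hUP⟩ := hUP
  obtain ⟨c, hc, hLOW⟩ := hLOW
  have hc' : 0 < c / 2 ^ (d - k) := by positivity
  refine ⟨c / 2 ^ (d - k), max (2 ^ d * C) (c / 2 ^ (d - k)), hc', le_max_right _ _, ?_⟩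
  intro Q hQ Ω _ μ θ hM
  obtain ⟨C1, L1, hL1, hU⟩ := hUP Q hQ
  obtain ⟨C2, L2, hL2, hD⟩ := hLOW Q hQ
  have hA := hBC hLAW k Ω μ θ hM (fun L t => ∃ u, L ^ k ≤ u ∧ u < (L + 1) ^ k ∧
      C * ((L : ℝ) ^ d / (L : ℝ) ^ k) * ((M k Q d u : ℝ) / (Q : ℝ) ^ (d - 1)) <
        (R k Q t d (L + 1) u : ℝ)) C1 L1 (fun L t t' h => by
          apply exists_congr
          intro u
          rw [R_congr h]) hU
  have hB := hBC hLAW k Ω μ θ hM (fun L t => ∃ u, L ^ k ≤ u ∧ u < (L + 1) ^ k ∧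
      (R k Q t d (L + 1) u : ℝ) <
        c * ((L : ℝ) ^ d / (L : ℝ) ^ k) * ((M k Q d u : ℝ) / (Q : ℝ) ^ (d - 1))) C2 L2
        (fun L t t' h => by
          apply exists_congr
          intro u
          rw [R_congr h]) hD
  filter_upwards [hA, hB] with ω h1 h2
  obtain ⟨LA, h1⟩ := h1
  obtain ⟨LB, h2⟩ := h2
  refine ⟨(LA + LB + 1) ^ k, fun u hu => ?_⟩
  have hu1 : 1 ≤ u := (Nat.one_le_pow _ _ (by omega)).trans hu
  obtain ⟨L, hL, hLu, huL⟩ := exists_root (k := k) (by omega) hu1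
  have hLbig : LA + LB + 1 ≤ L := by
    by_contra h0
    have h3 : (L + 1) ^ k ≤ (LA + LB + 1) ^ k := Nat.pow_le_pow_left (by omega) k
    omega
  have hup := h1 L (by omega)
  have hlo := h2 L (by omega)
  push Not at hup hlo
  have hup := hup u hLu huL
  have hlo := hlo u hLu huL
  obtain ⟨hN1, hN2⟩ := hNR k Q (fun x => θ x ω) d L u (by omega) hLu huL
  obtain ⟨hs1, hs2⟩ := scale (by omega) hd hL hLu huL
  have hrho : rho k Q d u = (M k Q d u : ℝ) / (Q : ℝ) ^ (d - 1) := by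
    rw [rho, hCNV k Q d u hQ]
  have hrho0 : 0 ≤ rho k Q d u := by
    rw [hrho]
    positivity
  rw [← hrho] at hup hlo
  have hN1' : (R k Q (fun x => θ x ω) d (L + 1) u : ℝ) ≤ N k Q (fun x => θ x ω) d u := by
    exact_mod_cast hN1
  have hN2' : (N k Q (fun x => θ x ω) d u : ℝ) ≤
      2 ^ d * (R k Q (fun x => θ x ω) d (L + 1) u : ℝ) := by
    exact_mod_cast hN2
  set Y := (L : ℝ) ^ d / (L : ℝ) ^ k with hY
  set X := (u : ℝ) ^ ((d : ℝ) / k - 1) with hX
  have hY0 : 0 ≤ Y := by positivity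
  have hX0 : 0 ≤ X := by positivity
  constructor
  · refine le_trans ?_ (hlo.trans hN1')
    have h3 : c / 2 ^ (d - k) * rho k Q d u * X ≤
        c / 2 ^ (d - k) * rho k Q d u * (2 ^ (d - k) * Y) :=
      mul_le_mul_of_nonneg_left hs2 (mul_nonneg hc'.le hrho0)
    refine h3.trans (le_of_eq ?_)
    have h4 : (2 : ℝ) ^ (d - k) ≠ 0 := by positivity
    field_simp
  · refine hN2'.trans ?_
    have h3 : 2 ^ d * (R k Q (fun x => θ x ω) d (L + 1) u : ℝ) ≤
        2 ^ d * (C * Y * rho k Q d u) := mul_le_mul_of_nonneg_left hup (by positivity)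
    refine h3.trans ?_
    have h4 : 2 ^ d * (C * Y * rho k Q d u) ≤ 2 ^ d * (C * X * rho k Q d u) := by
      refine mul_le_mul_of_nonneg_left ?_ (by positivity)
      exact mul_le_mul_of_nonneg_right (mul_le_mul_of_nonneg_left hs1 hC.le) hrho0
    refine h4.trans ?_
    have h5 : 2 ^ d * (C * X * rho k Q d u) = (2 ^ d * C) * (rho k Q d u * X) := by ring
    have h6 : max (2 ^ d * C) (c / 2 ^ (d - k)) * rho k Q d u * X =
        max (2 ^ d * C) (c / 2 ^ (d - k)) * (rho k Q d u * X) := by ring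
    rw [h5, h6]
    exact mul_le_mul_of_nonneg_right (le_max_left _ _) (mul_nonneg hrho0 hX0)

end Pool.Agent.V5helper18.RS
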